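import Mathlib

/-!
# A kernel computation in `SL(2,5)`
-/

namespace V11196.HPar

/-- `1` on the traces `2` and `4`, else `0`. -/
def tt (n : ℕ) : ℕ := if n = 2 then 1 else if n = 4 then 1 else 0

/-- Sum of the values at `0,1,2,3,4`. -/
def s5 (f : ℕ → ℕ) : ℕ := f 0 + f 1 + f 2 + f 3 + f 4

/-- All of `0,1,2,3,4`. -/
def a5 (f : ℕ → Bool) : Bool := f 0 && f 1 && f 2 && f 3 && f 4

/-- the count for `g = (w,x;y,u)` -/
def cnt (w x y u : ℕ) : ℕ :=
  s5 fun p => s5 fun q => s5 fun r => s5 fun s =>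
    if (p * s + 4 * (q * r)) % 5 = 1 then
      tt ((p + s) % 5) * tt ((s * w + 4 * (q * y) + 4 * (r * x) + p * u) % 5) else 0

set_option maxRecDepth 100000 in
theorem chk : (a5 fun w => a5 fun x => a5 fun y => a5 fun u =>
    if (w * u + 4 * (x * y)) % 5 = 1 then cnt w x y u % 2 == tt ((w + u) % 5) else true)
      = true := by
  decide +kernel

end V11196.HPar
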