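import Mathlib

/-!
# The dual group algebra `k^G` and the partial Hopf algebra `H_par`
-/

set_option linter.unusedSectionVars false

namespace V11196.HPar

open TensorProduct

/-- The algebra `k^G` of functions from `G` to `k`, with pointwise operations. -/
def Fn (k G : Type) : Type := G → k

section Fn

variable (k G : Type) [Field k]

noncomputable instance : CommRing (Fn k G) := inferInstanceAs (CommRing (G → k))
noncomputable instance : Algebra k (Fn k G) := inferInstanceAs (Algebra k (G → k))

variable {k G}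
variable [Group G] [Fintype G] [DecidableEq G]

/-- The indicator function of `g`. -/
def dl (g : G) : Fn k G := fun x => if x = g then 1 else 0

theorem dl_mul_dl (a b : G) : (dl a * dl b : Fn k G) = if a = b then dl a else 0 := by
  funext x
  show (if x = a then (1 : k) else 0) * (if x = b then (1 : k) else 0) = _
  by_cases hab : a = b
  · subst hab
    by_cases hx : x = a <;> simp [hx, dl]
  · rw [if_neg hab]
    by_cases hx : x = a
    · subst hx
      simp [hab]; rfl
    · simp [hx]; rfl

theorem sum_dl : ∑ g : G, (dl g : Fn k G) = 1 := by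
  funext x
  have : (∑ g : G, (dl g : Fn k G)) x = ∑ g : G, (dl g : Fn k G) x :=
    Finset.sum_apply (M := fun _ : G => k) x Finset.univ (fun g => (dl g : G → k))
  rw [this]
  simp only [dl, Finset.sum_ite_eq, Finset.mem_univ, if_true]
  rfl

theorem eq_sum_dl (f : Fn k G) : f = ∑ g : G, f g • dl g := by
  funext x
  have : (∑ g : G, f g • (dl g : Fn k G)) x = ∑ g : G, (f g • (dl g : Fn k G)) x :=
    Finset.sum_apply (M := fun _ : G => k) x Finset.univ (fun g => (f g • (dl g : Fn k G) : G → k))
  rw [this]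
  have h2 : ∀ g : G, (f g • (dl g : Fn k G)) x = f g * (if x = g then 1 else 0) := fun g => rfl
  simp only [h2]
  rw [Finset.sum_eq_single x]
  · simp
  · intro b _ hb
    simp [Ne.symm hb]
  · simp

/-- Two linear maps out of `k^G` that agree on the indicator functions are equal. -/
theorem Fn_ext {M : Type*} [AddCommMonoid M] [Module k M] {p q : Fn k G →ₗ[k] M}
    (h : ∀ g : G, p (dl g) = q (dl g)) : p = q := by
  ext f
  rw [eq_sum_dl f]
  simp only [map_sum, map_smul, h]

/-- The evaluation at `g` as a linear form. -/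
def evl (g : G) : Fn k G →ₗ[k] k where
  toFun f := f g
  map_add' _ _ := rfl
  map_smul' _ _ := rfl

theorem evl_dl (g h : G) : evl g (dl h : Fn k G) = if g = h then 1 else 0 := rfl

/-- The comultiplication of `k^G`: `f ↦ ∑ f(ab) δ_a ⊗ δ_b`. -/
noncomputable def cm : Fn k G →ₗ[k] Fn k G ⊗[k] Fn k G where
  toFun f := ∑ a : G, ∑ b : G, f (a * b) • (dl a ⊗ₜ[k] dl b)
  map_add' f g := by
    simp only [← Finset.sum_add_distrib, ← add_smul]
    rfl
  map_smul' c f := by
    simp only [Finset.smul_sum, smul_smul]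
    rfl

theorem cm_apply (f : Fn k G) : cm f = ∑ a : G, ∑ b : G, f (a * b) • (dl a ⊗ₜ[k] dl b) := rfl

theorem cm_dl (g : G) : cm (dl g : Fn k G) = ∑ a : G, dl a ⊗ₜ[k] dl (a⁻¹ * g) := by
  rw [cm_apply]
  refine Finset.sum_congr rfl fun a _ => ?_
  rw [Finset.sum_eq_single (a⁻¹ * g)]
  · simp [dl]
  · intro b _ hb
    have : a * b ≠ g := fun h => hb (by rw [← h]; group)
    simp [dl, this]
  · simp

theorem cm_mul_dl (a b : G) : cm (dl a * dl b : Fn k G) = cm (dl a) * cm (dl b) := by
  rw [cm_dl, cm_dl, dl_mul_dl, Finset.sum_mul_sum]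
  simp only [Algebra.TensorProduct.tmul_mul_tmul, dl_mul_dl]
  have h1 : ∀ x : G, (∑ y : G, (if x = y then dl x else 0 : Fn k G) ⊗ₜ[k]
      (if x⁻¹ * a = y⁻¹ * b then dl (x⁻¹ * a) else 0 : Fn k G)) =
      (if a = b then dl x ⊗ₜ[k] dl (x⁻¹ * a) else 0) := by
    intro x
    rw [Finset.sum_eq_single x]
    · by_cases hab : a = b
      · rw [if_pos rfl, if_pos (by rw [hab]), if_pos hab]
      · rw [if_neg (fun h => hab (mul_left_cancel h)), if_neg hab, TensorProduct.tmul_zero]
    · intro y _ hy
      rw [if_neg (Ne.symm hy), TensorProduct.zero_tmul]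
    · simp
  rw [Finset.sum_congr rfl (fun x _ => h1 x)]
  by_cases hab : a = b
  · rw [if_pos hab, cm_dl]
    exact Finset.sum_congr rfl (fun x _ => (if_pos hab).symm)
  · rw [if_neg hab, map_zero]
    exact (Finset.sum_eq_zero (fun x _ => if_neg hab)).symm

theorem cm_mul (f g : Fn k G) : cm (f * g) = cm f * cm g := by
  rw [eq_sum_dl f, eq_sum_dl g, Finset.sum_mul_sum]
  simp only [map_sum, map_smul, smul_mul_smul_comm, Finset.sum_mul_sum, cm_mul_dl]

theorem cm_one : cm (1 : Fn k G) = 1 := by
  rw [← sum_dl, map_sum]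
  simp only [cm_dl]
  rw [Finset.sum_comm]
  have h1 : ∀ x : G, ∑ g : G, (dl x ⊗ₜ[k] dl (x⁻¹ * g) : Fn k G ⊗[k] Fn k G) = dl x ⊗ₜ[k] 1 := by
    intro x
    rw [← TensorProduct.tmul_sum, ← sum_dl]
    congr 1
    exact Fintype.sum_equiv (Equiv.mulLeft x⁻¹) _ _ (fun _ => rfl)
  simp only [h1]
  rw [← TensorProduct.sum_tmul, sum_dl]
  rfl

noncomputable instance : Coalgebra k (Fn k G) where
  comul := cm
  counit := evl 1
  coassoc := by
    apply Fn_ext
    intro g
    simp only [LinearMap.comp_apply, cm_dl, map_sum, LinearMap.rTensor_tmul, LinearMap.lTensor_tmul,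
      TensorProduct.sum_tmul, TensorProduct.tmul_sum, TensorProduct.assoc_tmul,
      LinearEquiv.coe_coe]
    rw [Finset.sum_comm]
    refine Finset.sum_congr rfl fun a _ => ?_
    refine Fintype.sum_equiv (Equiv.mulLeft a⁻¹) _ _ (fun x => ?_)
    simp only [Equiv.coe_mulLeft, mul_inv_rev, inv_inv]
    congr 3
    group
  rTensor_counit_comp_comul := by
    apply Fn_ext
    intro g
    simp only [LinearMap.comp_apply, cm_dl, map_sum, LinearMap.rTensor_tmul,
      TensorProduct.mk_apply]
    rw [Finset.sum_eq_single 1]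
    · rw [evl_dl, if_pos rfl, inv_one, one_mul]
    · intro b _ hb
      rw [evl_dl, if_neg (Ne.symm hb), TensorProduct.zero_tmul]
    · simp
  lTensor_counit_comp_comul := by
    apply Fn_ext
    intro g
    simp only [LinearMap.comp_apply, cm_dl, map_sum, LinearMap.lTensor_tmul,
      LinearMap.flip_apply, TensorProduct.mk_apply]
    rw [Finset.sum_eq_single g]
    · rw [evl_dl, if_pos (by group)]
    · intro b _ hb
      have : ¬ (1 = b⁻¹ * g) := fun h => hb (by rw [eq_inv_mul_iff_mul_eq] at h; simpa using h)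
      rw [evl_dl, if_neg this, TensorProduct.tmul_zero]
    · simp

noncomputable instance : Bialgebra k (Fn k G) :=
  Bialgebra.mk' k (Fn k G) rfl (fun {_ _} => rfl) cm_one (fun {a b} => cm_mul a b)

/-- The antipode of `k^G`: `(S f)(g) = f(g⁻¹)`. -/
def ap : Fn k G →ₗ[k] Fn k G where
  toFun f := fun g => f g⁻¹
  map_add' _ _ := rfl
  map_smul' _ _ := rfl

theorem ap_dl (g : G) : ap (dl g : Fn k G) = dl g⁻¹ := by
  funext x
  show (if x⁻¹ = g then (1 : k) else 0) = if x = g⁻¹ then 1 else 0
  simp only [inv_eq_iff_eq_inv]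

/-- The Hopf algebra `k^G`. -/
noncomputable instance : HopfAlgebra k (Fn k G) where
  antipode := ap
  mul_antipode_rTensor_comul := by
    apply Fn_ext
    intro g
    show LinearMap.mul' k _ ((ap.rTensor (Fn k G)) (cm (dl g))) =
      Algebra.linearMap k _ (evl 1 (dl g))
    simp only [cm_dl, map_sum, LinearMap.rTensor_tmul, ap_dl, LinearMap.mul'_apply, dl_mul_dl]
    have : ∀ a : G, (a⁻¹ = a⁻¹ * g) ↔ (1 = g) := by
      intro a
      constructor
      · intro h
        have h2 := congrArg (fun t => a * t) h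
        simpa using h2
      · intro h
        rw [← h, mul_one]
    simp only [this, evl_dl]
    by_cases h : 1 = g
    · simp only [h, if_true]
      show _ = algebraMap k (Fn k G) 1
      rw [map_one, ← sum_dl]
      exact Fintype.sum_equiv (Equiv.inv G) _ _ (fun _ => rfl)
    · simp [h]
  mul_antipode_lTensor_comul := by
    apply Fn_ext
    intro g
    show LinearMap.mul' k _ ((ap.lTensor (Fn k G)) (cm (dl g))) =
      Algebra.linearMap k _ (evl 1 (dl g))
    simp only [cm_dl, map_sum, LinearMap.lTensor_tmul, ap_dl, LinearMap.mul'_apply, dl_mul_dl]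
    have : ∀ a : G, (a = (a⁻¹ * g)⁻¹) ↔ (1 = g) := by
      intro a
      rw [mul_inv_rev, inv_inv]
      constructor
      · intro h
        have h2 := congrArg (fun t => t * a⁻¹) h
        simp only [mul_inv_cancel, mul_assoc, mul_one] at h2
        rw [eq_comm, inv_eq_one] at h2
        exact h2.symm
      · intro h
        rw [← h, inv_one, one_mul]
    simp only [this, evl_dl]
    by_cases h : 1 = g
    · simp only [h, if_true]
      show _ = algebraMap k (Fn k G) 1
      rw [map_one]
      exact sum_dl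
    · simp [h]

end Fn

section HPar

variable (k H : Type) [Field k] [Ring H] [HopfAlgebra k H]

open TensorAlgebra

/-- The defining relations of `H_par` in the tensor algebra `T(H)`: for all `h, x` in `H`,
`1_H = 1`, `h ⊗ x₁ ⊗ S(x₂) = h x₁ ⊗ S(x₂)` and `h₁ ⊗ S(h₂) ⊗ x = h₁ ⊗ S(h₂) x`. -/
inductive HRel : TensorAlgebra k H → TensorAlgebra k H → Prop
  | one : HRel (ι k (1 : H)) 1
  | left (h x : H) : HRel
      (ι k h * LinearMap.mul' k (TensorAlgebra k H)
        (TensorProduct.map (ι k) (ι k ∘ₗ HopfAlgebra.antipode k) (Coalgebra.comul (R := k) x)))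
      (LinearMap.mul' k (TensorAlgebra k H)
        (TensorProduct.map (ι k ∘ₗ LinearMap.mulLeft k h) (ι k ∘ₗ HopfAlgebra.antipode k)
          (Coalgebra.comul (R := k) x)))
  | right (h x : H) : HRel
      (LinearMap.mul' k (TensorAlgebra k H)
        (TensorProduct.map (ι k) (ι k ∘ₗ HopfAlgebra.antipode k) (Coalgebra.comul (R := k) h)) *
          ι k x)
      (LinearMap.mul' k (TensorAlgebra k H)
        (TensorProduct.map (ι k) (ι k ∘ₗ LinearMap.mulRight k x ∘ₗ HopfAlgebra.antipode k)
          (Coalgebra.comul (R := k) h)))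

/-- The partial Hopf algebra `H_par = T(H)/I`. -/
abbrev Hpar : Type := RingQuot (HRel k H)

end HPar

end V11196.HPar
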