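import Pool.Agent.V11196.HPar.Defs

set_option linter.unusedSectionVars false

/-!
# Partial representations of `k^G` from an idempotent
-/

namespace V11196.HPar

open TensorProduct

section Lift

variable {k H : Type} [Field k] [Ring H] [HopfAlgebra k H]
variable {R : Type} [Ring R] [Algebra k R]

/-- A partial representation of `H` in `R`. -/
structure IsPRep (π : H →ₗ[k] R) : Prop where
  one : π 1 = 1
  left (h x : H) : π h * LinearMap.mul' k R
      (TensorProduct.map π (π ∘ₗ HopfAlgebra.antipode k) (Coalgebra.comul (R := k) x)) =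
    LinearMap.mul' k R (TensorProduct.map (π ∘ₗ LinearMap.mulLeft k h) (π ∘ₗ HopfAlgebra.antipode k)
          (Coalgebra.comul (R := k) x))
  right (h x : H) : LinearMap.mul' k R
      (TensorProduct.map π (π ∘ₗ HopfAlgebra.antipode k) (Coalgebra.comul (R := k) h)) * π x =
    LinearMap.mul' k R (TensorProduct.map π (π ∘ₗ LinearMap.mulRight k x ∘ₗ HopfAlgebra.antipode k)
          (Coalgebra.comul (R := k) h))

theorem lift_mul' {π : H →ₗ[k] R} (p q : H →ₗ[k] H) (t : H ⊗[k] H) :
    TensorAlgebra.lift k π (LinearMap.mul' k (TensorAlgebra k H)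
      (TensorProduct.map (TensorAlgebra.ι k ∘ₗ p) (TensorAlgebra.ι k ∘ₗ q) t)) =
    LinearMap.mul' k R (TensorProduct.map (π ∘ₗ p) (π ∘ₗ q) t) := by
  induction t with
  | zero => simp
  | add a b ha hb => simp only [map_add, ha, hb]
  | tmul a b => simp

/-- The algebra map out of `H_par` given by a partial representation. -/
noncomputable def liftP (π : H →ₗ[k] R) (hπ : IsPRep π) : Hpar k H →ₐ[k] R :=
  RingQuot.liftAlgHom k ⟨TensorAlgebra.lift k π, by
    intro x y hxy
    cases hxy with
    | one => simpa using hπ.one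
    | left h x =>
      have h1 := lift_mul' (π := π) LinearMap.id (HopfAlgebra.antipode k)
        (Coalgebra.comul (R := k) x)
      have h2 := lift_mul' (π := π) (LinearMap.mulLeft k h) (HopfAlgebra.antipode k)
        (Coalgebra.comul (R := k) x)
      rw [LinearMap.comp_id, LinearMap.comp_id] at h1
      rw [map_mul, h1, h2, TensorAlgebra.lift_ι_apply]
      exact hπ.left h x
    | right h x =>
      have h1 := lift_mul' (π := π) LinearMap.id (HopfAlgebra.antipode k)
        (Coalgebra.comul (R := k) h)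
      have h2 := lift_mul' (π := π) LinearMap.id (LinearMap.mulRight k x ∘ₗ HopfAlgebra.antipode k)
        (Coalgebra.comul (R := k) h)
      rw [LinearMap.comp_id, LinearMap.comp_id] at h1 h2
      rw [map_mul, h1, h2, TensorAlgebra.lift_ι_apply]
      exact hπ.right h x⟩

theorem liftP_mk (π : H →ₗ[k] R) (hπ : IsPRep π) (t : TensorAlgebra k H) :
    liftP π hπ (RingQuot.mkAlgHom k (HRel k H) t) = TensorAlgebra.lift k π t := by
  simp [liftP]

/-- If `R` carries a partial representation whose image algebra contains a nonzero central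
element of square zero, then `H_par` is not semisimple. -/
theorem not_semisimple (π : H →ₗ[k] R) (hπ : IsPRep π) (t : TensorAlgebra k H)
    (hz : TensorAlgebra.lift k π t ≠ 0)
    (hz2 : TensorAlgebra.lift k π t * TensorAlgebra.lift k π t = 0)
    (hc : ∀ h : H, π h * TensorAlgebra.lift k π t = TensorAlgebra.lift k π t * π h) :
    ¬ IsSemisimpleRing (Hpar k H) := by
  intro hss
  set z : Hpar k H := RingQuot.mkAlgHom k (HRel k H) t with hzdef
  set f := liftP π hπ with hf
  have hfz : f z = TensorAlgebra.lift k π t := liftP_mk π hπ t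
  rw [← hfz] at hz hz2 hc
  have hcomm : ∀ a : Hpar k H, f a * f z = f z * f a := by
    intro a
    obtain ⟨s, rfl⟩ := RingQuot.mkAlgHom_surjective k (HRel k H) a
    rw [liftP_mk]
    induction s using TensorAlgebra.induction with
    | algebraMap r => rw [AlgHom.commutes]; exact Algebra.commutes r _
    | ι x => rw [TensorAlgebra.lift_ι_apply]; exact hc x
    | mul a b ha hb => rw [map_mul, mul_assoc, hb, ← mul_assoc, ha, mul_assoc]
    | add a b ha hb => rw [map_add, add_mul, mul_add, ha, hb]
  have hss' : IsSemisimpleModule (Hpar k H) (Hpar k H) := hss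
  obtain ⟨C, hC⟩ := exists_isCompl (Submodule.span (Hpar k H) {z})
  have h1 : (1 : Hpar k H) ∈ Submodule.span (Hpar k H) {z} ⊔ C := by
    rw [hC.sup_eq_top]; trivial
  obtain ⟨a, ha, b, hb, hab⟩ := Submodule.mem_sup.mp h1
  obtain ⟨r, rfl⟩ := Submodule.mem_span_singleton.mp ha
  have hzb : z * b = 0 := by
    have hzb1 : z * b ∈ C := C.smul_mem z hb
    have hzb2 : z * b ∈ Submodule.span (Hpar k H) {z} := by
      have : z * b = (1 - z * r) • z := by
        have h3 : z * (r • z + b) = z := by rw [hab, mul_one]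
        rw [mul_add] at h3
        rw [smul_eq_mul, sub_mul, one_mul, mul_assoc, ← smul_eq_mul r z]
        exact eq_sub_of_add_eq' h3
      rw [this]
      exact Submodule.smul_mem _ _ (Submodule.mem_span_singleton_self z)
    exact (Submodule.disjoint_def.mp hC.disjoint) _ hzb2 hzb1
  have hzz : z = z * r * z := by
    have h3 : z * (r • z + b) = z := by rw [hab, mul_one]
    rw [mul_add, hzb, add_zero, smul_eq_mul, ← mul_assoc] at h3
    exact h3.symm
  apply hz
  rw [hzz, map_mul, map_mul, ← hcomm r, mul_assoc, hz2, mul_zero]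

end Lift

section Idem

variable {k G : Type} [Field k] [Group G] [Fintype G] [DecidableEq G]
variable {R : Type} [Ring R] [Algebra k R]
variable (D : Fn k G →ₐ[k] R) (T : R)

/-- The map `h ↦ T D(h) T + h(1) (1 - T)`. -/
noncomputable def pr : Fn k G →ₗ[k] R :=
  (LinearMap.mulLeft k T ∘ₗ LinearMap.mulRight k T) ∘ₗ D.toLinearMap +
    (LinearMap.toSpanSingleton k R (1 - T)) ∘ₗ evl 1

theorem pr_apply (h : Fn k G) : pr D T h = T * (D h * T) + evl 1 h • (1 - T) := rfl

/-- The element `T_g = ∑ D(δ_a) T D(δ_{g⁻¹a})`. -/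
noncomputable def tg (g : G) : R := ∑ a : G, D (dl a) * T * D (dl (g⁻¹ * a))

theorem D_mul (a b : G) : D (dl a) * D (dl b) = if a = b then D (dl a) else 0 := by
  rw [← map_mul, dl_mul_dl]
  split_ifs <;> simp

theorem D_tg (b g : G) : D (dl b) * tg D T g = D (dl b) * T * D (dl (g⁻¹ * b)) := by
  rw [tg, Finset.mul_sum, Finset.sum_eq_single b]
  · rw [← mul_assoc, ← mul_assoc, D_mul, if_pos rfl]
  · intro a _ ha
    rw [← mul_assoc, ← mul_assoc, D_mul, if_neg (Ne.symm ha), zero_mul, zero_mul]
  · simp

theorem tg_D (c g : G) : tg D T g * D (dl c) = D (dl (g * c)) * T * D (dl c) := by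
  rw [tg, Finset.sum_mul, Finset.sum_eq_single (g * c)]
  · rw [inv_mul_cancel_left, mul_assoc, D_mul, if_pos rfl]
  · intro a _ ha
    rw [mul_assoc, D_mul, if_neg, mul_zero]
    intro h
    apply ha
    rw [← h]
    group
  · simp

variable {D T}

theorem pr_dl (g : G) : pr D T (dl g) = T * (D (dl g) * T) + (if 1 = g then (1 - T) else 0) := by
  rw [pr_apply, evl_dl]
  split_ifs <;> simp

theorem pr_prod (hT : T * T = T) (a b : G) : pr D T (dl a) * pr D T (dl b) =
    T * (D (dl a) * T * D (dl b)) * T + (if 1 = a ∧ 1 = b then (1 - T) else 0) := by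
  have h1 : T * (1 - T) = 0 := by rw [mul_sub, hT, mul_one, sub_self]
  have h2 : (1 - T) * T = 0 := by rw [sub_mul, hT, one_mul, sub_self]
  have h3 : (1 - T) * (1 - T) = 1 - T := by rw [mul_sub, h2, mul_one, sub_zero]
  rw [pr_dl, pr_dl, add_mul, mul_add, mul_add]
  have e1 : T * (D (dl a) * T) * (T * (D (dl b) * T)) = T * (D (dl a) * T * D (dl b)) * T := by
    calc T * (D (dl a) * T) * (T * (D (dl b) * T)) = T * (D (dl a) * (T * T)) * D (dl b) * T := by
          noncomm_ring
      _ = _ := by rw [hT]; noncomm_ring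
  have e2 : T * (D (dl a) * T) * (if 1 = b then (1 - T) else 0) = 0 := by
    split_ifs
    · rw [mul_assoc, mul_assoc, h1, mul_zero, mul_zero]
    · rw [mul_zero]
  have e3 : (if 1 = a then (1 - T) else 0) * (T * (D (dl b) * T)) = 0 := by
    split_ifs
    · rw [← mul_assoc, h2, zero_mul]
    · rw [zero_mul]
  have e4 : (if 1 = a then (1 - T) else 0) * (if 1 = b then (1 - T) else 0) =
      if 1 = a ∧ 1 = b then (1 - T) else 0 := by
    by_cases ha : 1 = a <;> by_cases hb : 1 = b <;> simp [ha, hb, h3]
  rw [e1, e2, e3, e4, add_zero, zero_add]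

/-- `E_g = ∑ π(δ_a) π(δ_{g⁻¹a})`. -/
theorem eg_eq (hT : T * T = T) (hc : ∀ g, T * tg D T g = tg D T g * T) (g : G) :
    ∑ a : G, pr D T (dl a) * pr D T (dl (g⁻¹ * a)) =
      T * tg D T g + (if 1 = g then (1 - T) else 0) := by
  rw [Finset.sum_congr rfl (fun a _ => pr_prod hT a (g⁻¹ * a)), Finset.sum_add_distrib]
  congr 1
  · rw [← Finset.sum_mul, ← Finset.mul_sum]
    show T * tg D T g * T = _
    rw [mul_assoc, ← hc, ← mul_assoc, hT]
  · rw [Finset.sum_eq_single 1]
    · have : (1 = g⁻¹ * 1) ↔ 1 = g := by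
        rw [mul_one]
        constructor
        · intro h; rw [eq_comm, inv_eq_one] at h; exact h.symm
        · intro h; rw [← h, inv_one]
      simp only [true_and, this]
    · intro b _ hb
      rw [if_neg (fun h => hb h.1.symm)]
    · simp

theorem pr_one (D : Fn k G →ₐ[k] R) (hT : T * T = T) : pr D T 1 = 1 := by
  rw [pr_apply, map_one, one_mul, hT]
  have : evl 1 (1 : Fn k G) = 1 := rfl
  rw [this, one_smul, add_sub_cancel]

theorem key_left (hT : T * T = T) (hc : ∀ g, T * tg D T g = tg D T g * T) (b g : G) :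
    pr D T (dl b) * (∑ a : G, pr D T (dl a) * pr D T (dl (g⁻¹ * a))) =
        ∑ a : G, pr D T (dl b * dl a) * pr D T (dl (g⁻¹ * a)) := by
  have h1 : T * (1 - T) = 0 := by rw [mul_sub, hT, mul_one, sub_self]
  have h2 : (1 - T) * T = 0 := by rw [sub_mul, hT, one_mul, sub_self]
  have h3 : (1 - T) * (1 - T) = 1 - T := by rw [mul_sub, h2, mul_one, sub_zero]
  rw [eg_eq hT hc, Finset.sum_eq_single b]
  · rw [dl_mul_dl, if_pos rfl, pr_prod hT, pr_dl, ← D_tg, add_mul, mul_add, mul_add]
    have e1 : T * (D (dl b) * T) * (T * tg D T g) = T * (D (dl b) * tg D T g) * T := by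
      calc T * (D (dl b) * T) * (T * tg D T g) = T * (D (dl b) * ((T * T) * tg D T g)) := by
            noncomm_ring
        _ = T * (D (dl b) * (tg D T g * T)) := by rw [hT, hc]
        _ = _ := by noncomm_ring
    have e2 : T * (D (dl b) * T) * (if 1 = g then (1 - T) else 0) = 0 := by
      split_ifs
      · rw [mul_assoc, mul_assoc, h1, mul_zero, mul_zero]
      · rw [mul_zero]
    have e3 : (if 1 = b then (1 - T) else 0) * (T * tg D T g) = 0 := by
      split_ifs
      · rw [← mul_assoc, h2, zero_mul]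
      · rw [zero_mul]
    have e4 : (if 1 = b then (1 - T) else 0) * (if 1 = g then (1 - T) else 0) =
        if 1 = b ∧ 1 = g⁻¹ * b then (1 - T) else 0 := by
      by_cases hb : 1 = b
      · subst hb
        have : (1 = g⁻¹ * 1) ↔ 1 = g := by
          rw [mul_one]
          constructor
          · intro h; rw [eq_comm, inv_eq_one] at h; exact h.symm
          · intro h; rw [← h, inv_one]
        simp only [true_and, this, if_true]
        split_ifs
        · exact h3
        · rw [mul_zero]
      · simp [hb]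
    rw [e1, e2, e3, e4, add_zero, zero_add]
  · intro a _ ha
    rw [dl_mul_dl, if_neg (Ne.symm ha), map_zero, zero_mul]
  · simp

theorem key_right (hT : T * T = T) (hc : ∀ g, T * tg D T g = tg D T g * T) (c g : G) :
    (∑ a : G, pr D T (dl a) * pr D T (dl (g⁻¹ * a))) * pr D T (dl c) =
        ∑ a : G, pr D T (dl a) * pr D T (dl (g⁻¹ * a) * dl c) := by
  have h1 : T * (1 - T) = 0 := by rw [mul_sub, hT, mul_one, sub_self]
  have h2 : (1 - T) * T = 0 := by rw [sub_mul, hT, one_mul, sub_self]
  have h3 : (1 - T) * (1 - T) = 1 - T := by rw [mul_sub, h2, mul_one, sub_zero]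
  rw [eg_eq hT hc, Finset.sum_eq_single (g * c)]
  · rw [dl_mul_dl, inv_mul_cancel_left, if_pos rfl, pr_prod hT, pr_dl, ← tg_D, add_mul, mul_add,
      mul_add]
    have e1 : T * tg D T g * (T * (D (dl c) * T)) = T * (tg D T g * D (dl c)) * T := by
      calc T * tg D T g * (T * (D (dl c) * T)) = T * (tg D T g * T) * (D (dl c) * T) := by
            noncomm_ring
        _ = (T * T) * (tg D T g * (D (dl c) * T)) := by rw [← hc]; noncomm_ring
        _ = _ := by rw [hT]; noncomm_ring
    have e2 : T * tg D T g * (if 1 = c then (1 - T) else 0) = 0 := by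
      split_ifs
      · rw [hc, mul_assoc, h1, mul_zero]
      · rw [mul_zero]
    have e3 : (if 1 = g then (1 - T) else 0) * (T * (D (dl c) * T)) = 0 := by
      split_ifs
      · rw [← mul_assoc, h2, zero_mul]
      · rw [zero_mul]
    have e4 : (if 1 = g then (1 - T) else 0) * (if 1 = c then (1 - T) else 0) =
        if 1 = g * c ∧ 1 = c then (1 - T) else 0 := by
      by_cases hb : 1 = c
      · subst hb
        simp only [mul_one, and_true, if_true]
        split_ifs
        · exact h3
        · rw [zero_mul]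
      · simp [hb]
    rw [e1, e2, e3, e4, add_zero, zero_add]
  · intro a _ ha
    rw [dl_mul_dl, if_neg, map_zero, mul_zero]
    intro h
    apply ha
    rw [← h]
    group
  · simp

theorem key_left' (hT : T * T = T) (hc : ∀ g, T * tg D T g = tg D T g * T) (h : Fn k G) (g : G) :
    pr D T h * (∑ a : G, pr D T (dl a) * pr D T (dl (g⁻¹ * a))) =
        ∑ a : G, pr D T (h * dl a) * pr D T (dl (g⁻¹ * a)) := by
  have e : (LinearMap.mulRight k (∑ a : G, pr D T (dl a) * pr D T (dl (g⁻¹ * a)))) ∘ₗ pr D T =
      ∑ a : G, (LinearMap.mulRight k (pr D T (dl (g⁻¹ * a)))) ∘ₗ pr D T ∘ₗ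
        LinearMap.mulRight k (dl a) := by
    apply Fn_ext
    intro b
    simp only [LinearMap.sum_apply, LinearMap.comp_apply, LinearMap.mulRight_apply]
    exact key_left hT hc b g
  have := LinearMap.congr_fun e h
  simpa only [LinearMap.sum_apply, LinearMap.comp_apply, LinearMap.mulRight_apply] using this

theorem key_right' (hT : T * T = T) (hc : ∀ g, T * tg D T g = tg D T g * T) (x : Fn k G) (g : G) :
    (∑ a : G, pr D T (dl a) * pr D T (dl (g⁻¹ * a))) * pr D T x =
        ∑ a : G, pr D T (dl a) * pr D T (dl (g⁻¹ * a) * x) := by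
  have e : (LinearMap.mulLeft k (∑ a : G, pr D T (dl a) * pr D T (dl (g⁻¹ * a)))) ∘ₗ pr D T =
      ∑ a : G, (LinearMap.mulLeft k (pr D T (dl a))) ∘ₗ pr D T ∘ₗ
        LinearMap.mulLeft k (dl (g⁻¹ * a)) := by
    apply Fn_ext
    intro b
    simp only [LinearMap.sum_apply, LinearMap.comp_apply, LinearMap.mulLeft_apply]
    exact key_right hT hc b g
  have := LinearMap.congr_fun e x
  simpa only [LinearMap.sum_apply, LinearMap.comp_apply, LinearMap.mulLeft_apply] using this

theorem isPRep (hT : T * T = T) (hc : ∀ g, T * tg D T g = tg D T g * T) : IsPRep (pr D T) where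
  one := pr_one D hT
  left h x := by
    have e : (LinearMap.mulLeft k (pr D T h)) ∘ₗ LinearMap.mul' k R ∘ₗ
        (TensorProduct.map (pr D T) (pr D T ∘ₗ HopfAlgebra.antipode k)) ∘ₗ
          (Coalgebra.comul (R := k) (A := Fn k G)) = LinearMap.mul' k R ∘ₗ
        (TensorProduct.map (pr D T ∘ₗ LinearMap.mulLeft k h)
          (pr D T ∘ₗ HopfAlgebra.antipode k)) ∘ₗ
          (Coalgebra.comul (R := k) (A := Fn k G)) := by
      apply Fn_ext
      intro g
      have hcm : (Coalgebra.comul (R := k) (A := Fn k G)) (dl g) =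
        ∑ a : G, dl a ⊗ₜ[k] dl (a⁻¹ * g) := cm_dl g
      have hap : ∀ a : G, HopfAlgebra.antipode k (dl a : Fn k G) = dl a⁻¹ := ap_dl
      simp only [LinearMap.comp_apply, hcm, map_sum, TensorProduct.map_tmul,
        LinearMap.mulLeft_apply, LinearMap.mul'_apply, hap, mul_inv_rev, inv_inv]
      rw [← Finset.mul_sum]
      exact key_left' hT hc h g
    exact LinearMap.congr_fun e x
  right h x := by
    have e : (LinearMap.mulRight k (pr D T x)) ∘ₗ LinearMap.mul' k R ∘ₗ
        (TensorProduct.map (pr D T) (pr D T ∘ₗ HopfAlgebra.antipode k)) ∘ₗ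
          (Coalgebra.comul (R := k) (A := Fn k G)) = LinearMap.mul' k R ∘ₗ
        (TensorProduct.map (pr D T)
          (pr D T ∘ₗ LinearMap.mulRight k x ∘ₗ HopfAlgebra.antipode k)) ∘ₗ
          (Coalgebra.comul (R := k) (A := Fn k G)) := by
      apply Fn_ext
      intro g
      have hcm : (Coalgebra.comul (R := k) (A := Fn k G)) (dl g) =
        ∑ a : G, dl a ⊗ₜ[k] dl (a⁻¹ * g) := cm_dl g
      have hap : ∀ a : G, HopfAlgebra.antipode k (dl a : Fn k G) = dl a⁻¹ := ap_dl
      simp only [LinearMap.comp_apply, hcm, map_sum, TensorProduct.map_tmul,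
        LinearMap.mulRight_apply, LinearMap.mul'_apply, hap, mul_inv_rev, inv_inv]
      rw [← Finset.sum_mul]
      exact key_right' hT hc x g
    exact LinearMap.congr_fun e h

/-- The element `∑ a, δ_a ⊗ δ_{g⁻¹a}` of the tensor algebra, whose image is `E_g`. -/
noncomputable def et (k : Type) [Field k] (g : G) : TensorAlgebra k (Fn k G) :=
  ∑ a : G, TensorAlgebra.ι k (dl a) * TensorAlgebra.ι k (dl (g⁻¹ * a))

theorem lift_et (hT : T * T = T) (hc : ∀ g, T * tg D T g = tg D T g * T) (g : G) (hg : g ≠ 1) :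
    TensorAlgebra.lift k (pr D T) (et k g) = T * tg D T g := by
  have := eg_eq hT hc g
  rw [if_neg (Ne.symm hg), add_zero] at this
  rw [← this, et]
  simp only [map_sum, map_mul, TensorAlgebra.lift_ι_apply]

/-- The abstract criterion: if the products `T_a T_b T_c = ζT`, `T_a T_{a'} = T` for some
non-identity `a, a', b, c`, with `ζ` commuting with everything, `ζ² = 1`, `ζT ≠ T`, in
characteristic two, then `H_par` of `k^G` is not semisimple. -/
theorem not_semisimple_of (h2 : (2 : R) = 0) (hT : T * T = T)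
    (hc : ∀ g, T * tg D T g = tg D T g * T)
    (Z : R) (hZ2 : Z * Z = 1) (hZT : Z * T = T * Z) (hZD : ∀ h, Z * D h = D h * Z)
    (hne : T * Z ≠ T) (a a' b c : G) (ha : a ≠ 1) (ha' : a' ≠ 1) (hb : b ≠ 1) (hcc : c ≠ 1)
    (haa : T * tg D T a * (T * tg D T a') = T)
    (habc : T * tg D T a * (T * tg D T b) * (T * tg D T c) = T * Z) :
    ¬ IsSemisimpleRing (Hpar k (Fn k G)) := by
  have hsub : T * Z - T ≠ 0 := sub_ne_zero.mpr hne
  have hlift : TensorAlgebra.lift k (pr D T) (et k a * et k b * et k c - et k a * et k a') =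
      T * Z - T := by
    rw [map_sub, map_mul, map_mul, map_mul, lift_et hT hc _ ha, lift_et hT hc _ ha',
      lift_et hT hc _ hb, lift_et hT hc _ hcc, haa, habc]
  refine not_semisimple (pr D T) (isPRep hT hc)
    (et k a * et k b * et k c - et k a * et k a') ?_ ?_ ?_
  · rw [hlift]; exact hsub
  · rw [hlift]
    have : (T * Z - T) * (T * Z - T) = 2 * (T - T * Z) := by
      have e1 : T * Z * (T * Z) = T := by
        calc T * Z * (T * Z) = T * (Z * T) * Z := by noncomm_ring
          _ = (T * T) * (Z * Z) := by rw [hZT]; noncomm_ring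
          _ = T := by rw [hT, hZ2, mul_one]
      have e2 : T * Z * T = T * Z := by rw [mul_assoc, hZT, ← mul_assoc, hT]
      have e3 : T * (T * Z) = T * Z := by rw [← mul_assoc, hT]
      rw [sub_mul, mul_sub, mul_sub, e1, e2, e3, hT, two_mul]
      abel
    rw [this, h2, zero_mul]
  · intro h
    rw [hlift, pr_apply]
    have e1 : T * (T * Z - T) = T * Z - T := by rw [mul_sub, ← mul_assoc, hT]
    have e2 : (T * Z - T) * T = T * Z - T := by
      rw [sub_mul, mul_assoc, hZT, ← mul_assoc, hT]
    have e3 : (1 - T) * (T * Z - T) = 0 := by rw [sub_mul, one_mul, e1, sub_self]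
    have e4 : (T * Z - T) * (1 - T) = 0 := by rw [mul_sub, mul_one, e2, sub_self]
    rw [add_mul, mul_add, smul_mul_assoc, mul_smul_comm, e3, e4, smul_zero, add_zero, add_zero]
    have e5 : T * (D h * T) * (T * Z - T) = T * D h * (T * (T * Z - T)) := by noncomm_ring
    have e6 : (T * Z - T) * (T * (D h * T)) = ((T * Z - T) * T) * D h * T := by noncomm_ring
    rw [e5, e6, e1, e2]
    have e7 : T * D h * (T * Z - T) = T * D h * (T * Z) - T * D h * T := by noncomm_ring
    have e8 : (T * Z - T) * D h * T = T * (Z * D h) * T - T * D h * T := by noncomm_ring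
    rw [e7, e8, hZD, ← hZT]
    noncomm_ring

end Idem

end V11196.HPar
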