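import Pool.Agent.V11196.HPar.PRep
import Pool.Agent.V11196.HPar.Chk

set_option linter.unusedSectionVars false

/-!
# The counterexample: `G = PSL(2,5)` in characteristic two
-/

namespace V11196.HPar

section Conv

variable {k Q : Type} [Field k] [Group Q] [Fintype Q] [DecidableEq Q]

/-- The matrix of left multiplication by the element `∑ u(a) a` of the group algebra. -/
def MM (u : Q → k) : Matrix Q Q k := Matrix.of fun x y => u (x * y⁻¹)

/-- Convolution. -/
def cv (u v : Q → k) : Q → k := fun g => ∑ a : Q, u a * v (a⁻¹ * g)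

theorem MM_mul (u v : Q → k) : MM u * MM v = MM (cv u v) := by
  ext x y
  rw [Matrix.mul_apply]
  show ∑ w : Q, u (x * w⁻¹) * v (w * y⁻¹) = ∑ a : Q, u a * v (a⁻¹ * (x * y⁻¹))
  refine Fintype.sum_equiv ((Equiv.inv Q).trans (Equiv.mulLeft x)) _ _ (fun w => ?_)
  simp only [Equiv.trans_apply, Equiv.inv_apply, Equiv.coe_mulLeft, mul_inv_rev, inv_inv]
  congr 2
  group

/-- The indicator function of `v`. -/
def ind (k : Type) [Field k] (v : Q) : Q → k := fun x => if x = v then 1 else 0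

theorem cv_ind (u : Q → k) (v g : Q) : cv u (ind k v) g = u (g * v⁻¹) := by
  unfold cv ind
  rw [Finset.sum_eq_single (g * v⁻¹)]
  · rw [if_pos (by group), mul_one]
  · intro a _ ha
    rw [if_neg, mul_zero]
    intro h
    apply ha
    rw [← h]
    group
  · simp

theorem ind_cv (u : Q → k) (v g : Q) : cv (ind k v) u g = u (v⁻¹ * g) := by
  unfold cv ind
  rw [Finset.sum_eq_single v]
  · simp
  · intro a _ ha
    rw [if_neg ha, zero_mul]
  · simp

theorem cv_ind_ind (v w : Q) : cv (ind k v) (ind k w) = ind k (v * w) := by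
  funext g
  rw [ind_cv]
  unfold ind
  have : v⁻¹ * g = w ↔ g = v * w := inv_mul_eq_iff_eq_mul
  simp only [this]

theorem MM_one : MM (ind k (1 : Q)) = 1 := by
  ext x y
  show (if x * y⁻¹ = 1 then (1 : k) else 0) = _
  rw [Matrix.one_apply]
  simp only [mul_inv_eq_one]

theorem MM_comm (z u : Q → k) (hz : ∀ x y, z (x * y) = z (y * x)) : MM z * MM u = MM u * MM z := by
  rw [MM_mul, MM_mul]
  congr 1
  funext g
  show ∑ a : Q, z a * u (a⁻¹ * g) = ∑ a : Q, u a * z (a⁻¹ * g)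
  symm
  refine Fintype.sum_equiv ((Equiv.inv Q).trans (Equiv.mulLeft g)) _ _ (fun w => ?_)
  simp only [Equiv.trans_apply, Equiv.inv_apply, Equiv.coe_mulLeft, mul_inv_rev, inv_inv]
  rw [mul_comm, hz, inv_mul_cancel_right]

variable {G : Type} [Group G] [Fintype G] [DecidableEq G]

/-- The algebra map `k^G → Mat_Q(k)` given by a homomorphism `φ : Q → G`. -/
noncomputable def DD (k : Type) [Field k] (φ : Q →* G) : Fn k G →ₐ[k] Matrix Q Q k where
  toFun h := Matrix.diagonal (fun x => h (φ x))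
  map_one' := by
    show Matrix.diagonal (fun _ : Q => (1 : k)) = 1
    exact Matrix.diagonal_one
  map_mul' a b := by
    show Matrix.diagonal (fun x => a (φ x) * b (φ x)) = _
    rw [Matrix.diagonal_mul_diagonal]
  map_zero' := by
    show Matrix.diagonal (fun _ : Q => (0 : k)) = 0
    exact Matrix.diagonal_zero
  map_add' a b := by
    show Matrix.diagonal (fun x => a (φ x) + b (φ x)) = _
    rw [Matrix.diagonal_add]
  commutes' r := by
    have : (fun x : Q => (algebraMap k (Fn k G) r) (φ x)) = fun _ => r := rfl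
    rw [this]
    rfl

theorem DD_apply (φ : Q →* G) (h : Fn k G) : DD k φ h = Matrix.diagonal (fun x => h (φ x)) := rfl

theorem tg_DD (φ : Q →* G) (z : Q → k) (g : G) :
    tg (DD k φ) (MM z) g = MM (fun x => if φ x = g then z x else 0) := by
  ext x y
  unfold tg
  rw [Matrix.sum_apply]
  have h1 : ∀ a : G, (DD k φ (dl a) * MM z * DD k φ (dl (g⁻¹ * a))) x y =
      (if φ x = a then 1 else 0) * z (x * y⁻¹) * (if φ y = g⁻¹ * a then 1 else 0) := by
    intro a
    rw [DD_apply, DD_apply, Matrix.mul_diagonal, Matrix.diagonal_mul]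
    rfl
  simp only [h1]
  rw [Finset.sum_eq_single (φ x)]
  · rw [if_pos rfl, one_mul]
    show _ = if φ (x * y⁻¹) = g then z (x * y⁻¹) else 0
    rw [map_mul, map_inv]
    have : φ y = g⁻¹ * φ x ↔ φ x * (φ y)⁻¹ = g := by
      constructor
      · intro h; rw [h]; group
      · intro h; rw [← h]; group
    simp only [this]
    split_ifs <;> simp
  · intro b _ hb
    rw [if_neg (Ne.symm hb), zero_mul, zero_mul]
  · simp

theorem MM_ind_DD (φ : Q →* G) (ζ : Q) (hζ : φ ζ = 1) (h : Fn k G) :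
    MM (ind k ζ) * DD k φ h = DD k φ h * MM (ind k ζ) := by
  ext x y
  rw [DD_apply, Matrix.mul_diagonal, Matrix.diagonal_mul]
  show (if x * y⁻¹ = ζ then 1 else 0) * h (φ y) = h (φ x) * (if x * y⁻¹ = ζ then 1 else 0)
  split_ifs with hxy
  · have : φ x = φ y := by
      have h3 : x = ζ * y := by rw [← hxy]; group
      rw [h3, map_mul, hζ, one_mul]
    rw [this, mul_comm]
  · simp

theorem not_ss_of_class (h2 : (2 : k) = 0) (φ : Q →* G) (ζ : Q)
    (hker : ∀ x y, φ x = φ y ↔ x = y ∨ x = ζ * y) (hζ2 : ζ * ζ = 1)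
    (z : Q → k) (hz : ∀ x y, z (x * y) = z (y * x))
    (hzz : cv z z = z) (hz1 : z 1 = 1) (hzζ : z ζ = 0)
    (a b c : Q) (ha : z a = 1) (ha0 : z (ζ * a) = 0) (ha' : z a⁻¹ = 1) (ha0' : z (ζ * a⁻¹) = 0)
    (hb : z b = 1) (hb0 : z (ζ * b) = 0) (hc : z c = 1) (hc0 : z (ζ * c) = 0)
    (habc : a * b * c = ζ) (ha1 : a ≠ 1) (hb1 : b ≠ 1) (hc1 : c ≠ 1) :
    ¬ IsSemisimpleRing (Hpar k (Fn k G)) := by
  classical
  have hζ1 : ζ ≠ 1 := by
    intro h
    rw [h, hz1] at hzζ
    exact one_ne_zero hzζ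
  -- the elements `T_g`
  have htg : ∀ v : Q, z v = 1 → z (ζ * v) = 0 →
      tg (DD k φ) (MM z) (φ v) = MM (ind k v) := by
    intro v hv hv0
    rw [tg_DD]
    congr 1
    funext x
    unfold ind
    by_cases hx : x = v
    · rw [if_pos (by rw [hx]), if_pos hx, hx, hv]
    · rw [if_neg hx]
      split_ifs with h
      · rcases (hker x v).mp h with h' | h'
        · exact absurd h' hx
        · rw [h', hv0]
      · rfl
  have hT : (MM z : Matrix Q Q k) * MM z = MM z := by rw [MM_mul, hzz]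
  have hcomm : ∀ g, MM z * tg (DD k φ) (MM z) g = tg (DD k φ) (MM z) g * MM z := by
    intro g
    rw [tg_DD]
    exact MM_comm z _ hz
  have hne1 : ∀ v : Q, v ≠ 1 → z v = 1 → φ v ≠ 1 := by
    intro v hv hv1 h
    rw [← map_one φ] at h
    rcases (hker v 1).mp h with h' | h'
    · exact hv h'
    · rw [h', mul_one, hzζ] at hv1
      exact zero_ne_one hv1
  refine not_semisimple_of (D := DD k φ) (T := MM z) ?_ hT hcomm (MM (ind k ζ)) ?_ ?_ ?_ ?_
    (φ a) (φ a⁻¹) (φ b) (φ c) (hne1 a ha1 ha) (hne1 _ (inv_ne_one.mpr ha1) ha') (hne1 b hb1 hb)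
    (hne1 c hc1 hc) ?_ ?_
  · have : (2 : Matrix Q Q k) = (2 : k) • 1 := by
      rw [two_smul]
      exact (one_add_one_eq_two).symm
    rw [this, h2, zero_smul]
  · rw [MM_mul, cv_ind_ind, hζ2, MM_one]
  · exact (MM_comm z _ hz).symm
  · intro h
    exact MM_ind_DD φ ζ (by rw [← map_one φ, hker]; right; rw [mul_one]) h
  · intro h
    have h3 := congrFun (congrFun h 1) 1
    rw [MM_mul] at h3
    have e1 : MM (cv z (ind k ζ)) 1 1 = z (1 * ζ⁻¹) := by
      show cv z (ind k ζ) (1 * (1 : Q)⁻¹) = _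
      rw [cv_ind, inv_one, mul_one]
    have e2 : (MM z : Matrix Q Q k) 1 1 = z 1 := by
      show z (1 * 1⁻¹) = z 1
      rw [inv_one, mul_one]
    have e3 : ζ⁻¹ = ζ := inv_eq_of_mul_eq_one_left hζ2
    rw [e1, e2, one_mul, e3, hzζ, hz1] at h3
    exact zero_ne_one h3
  · rw [htg a ha ha0, htg a⁻¹ ha' ha0']
    have hc1 : (MM z : Matrix Q Q k) * MM (ind k a) = MM (ind k a) * MM z := MM_comm z _ hz
    calc MM z * MM (ind k a) * (MM z * MM (ind k a⁻¹))
        = MM z * (MM (ind k a) * MM z) * MM (ind k a⁻¹) := by noncomm_ring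
      _ = (MM z * MM z) * (MM (ind k a) * MM (ind k a⁻¹)) := by rw [← hc1]; noncomm_ring
      _ = MM z := by rw [hT, MM_mul (ind k a), cv_ind_ind, mul_inv_cancel, MM_one, mul_one]
  · rw [htg a ha ha0, htg b hb hb0, htg c hc hc0]
    have hc1 : (MM z : Matrix Q Q k) * MM (ind k a) = MM (ind k a) * MM z := MM_comm z _ hz
    have hc2 : (MM z : Matrix Q Q k) * MM (ind k b) = MM (ind k b) * MM z := MM_comm z _ hz
    have e1 : (MM z : Matrix Q Q k) * MM (ind k a) * (MM z * MM (ind k b)) =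
        MM z * (MM (ind k a) * MM (ind k b)) := by
      calc (MM z : Matrix Q Q k) * MM (ind k a) * (MM z * MM (ind k b))
          = MM z * (MM (ind k a) * MM z) * MM (ind k b) := by noncomm_ring
        _ = (MM z * MM z) * (MM (ind k a) * MM (ind k b)) := by rw [← hc1]; noncomm_ring
        _ = _ := by rw [hT]
    rw [e1, MM_mul (ind k a), cv_ind_ind]
    have hc3 : (MM z : Matrix Q Q k) * MM (ind k (a * b)) = MM (ind k (a * b)) * MM z :=
      MM_comm z _ hz
    calc (MM z : Matrix Q Q k) * MM (ind k (a * b)) * (MM z * MM (ind k c))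
          = MM z * (MM (ind k (a * b)) * MM z) * MM (ind k c) := by noncomm_ring
        _ = (MM z * MM z) * (MM (ind k (a * b)) * MM (ind k c)) := by rw [← hc3]; noncomm_ring
        _ = _ := by rw [hT, MM_mul (ind k (a * b)), cv_ind_ind, habc]

end Conv

section SL

open Matrix

/-- The group `SL(2,5)`. -/
abbrev Q5 : Type := Matrix.SpecialLinearGroup (Fin 2) (ZMod 5)

/-- `1` on the traces `2` and `4`. -/
def tz (k : Type) [Field k] (t : ZMod 5) : k := if t = 2 then 1 else if t = 4 then 1 else 0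

theorem tz_eq (k : Type) [Field k] (n : ℕ) : tz k (n : ZMod 5) = ((tt (n % 5) : ℕ) : k) := by
  have h1 : (n : ZMod 5) = ((n % 5 : ℕ) : ZMod 5) := by
    rw [ZMod.natCast_mod]
  rw [h1]
  have h2 : n % 5 < 5 := Nat.mod_lt _ (by norm_num)
  generalize n % 5 = m at h2
  unfold tz tt
  interval_cases m
  · rw [if_neg (by decide), if_neg (by decide)]; simp
  · rw [if_neg (by decide), if_neg (by decide)]; simp
  · rw [if_pos (by decide)]; simp
  · rw [if_neg (by decide), if_neg (by decide)]; simp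
  · rw [if_neg (by decide), if_pos (by decide)]; simp

/-- The sum of the elements of odd order of `SL(2,5)` as a function. -/
def zf (k : Type) [Field k] (A : Q5) : k := tz k (A.1 0 0 + A.1 1 1)

theorem zf_comm (k : Type) [Field k] (A B : Q5) : zf k (A * B) = zf k (B * A) := by
  unfold zf
  congr 1
  rw [Matrix.SpecialLinearGroup.coe_mul, Matrix.SpecialLinearGroup.coe_mul]
  simp only [Matrix.mul_apply, Fin.sum_univ_two]
  ring

theorem sum_s5 (k : Type) [Field k] (F : ZMod 5 → k) (f : ℕ → ℕ)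
    (h : ∀ n : ℕ, n < 5 → F (n : ZMod 5) = ((f n : ℕ) : k)) : ∑ p : ZMod 5, F p = ((s5 f : ℕ) : k) := by
  have e : ∑ p : ZMod 5, F p = F 0 + F 1 + F 2 + F 3 + F 4 := Fin.sum_univ_five F
  rw [e]
  have h0 := h 0 (by norm_num)
  have h1 := h 1 (by norm_num)
  have h2 := h 2 (by norm_num)
  have h3 := h 3 (by norm_num)
  have h4 := h 4 (by norm_num)
  simp only [Nat.cast_zero, Nat.cast_one, Nat.cast_ofNat] at h0 h1 h2 h3 h4
  rw [h0, h1, h2, h3, h4]
  unfold s5
  push_cast
  ring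

theorem det_nat (p q r s : ℕ) : ((p : ZMod 5) * s - q * r = 1) ↔ (p * s + 4 * (q * r)) % 5 = 1 := by
  have h4 : (4 : ZMod 5) = -1 := by decide
  have e : (p : ZMod 5) * s - q * r = ((p * s + 4 * (q * r) : ℕ) : ZMod 5) := by
    push_cast
    rw [h4]
    ring
  have e1 : (1 : ZMod 5) = ((1 : ℕ) : ZMod 5) := by simp
  rw [e, e1, ZMod.natCast_eq_natCast_iff']

theorem sum4 (k : Type) [Field k] (w x y u : ℕ) :
    ∑ p : ZMod 5, ∑ q : ZMod 5, ∑ r : ZMod 5, ∑ s : ZMod 5,
      (if p * s - q * r = 1 then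
        tz k (p + s) * tz k (s * w - q * y - r * x + p * u) else 0) =
      ((cnt w x y u : ℕ) : k) := by
  unfold cnt
  refine sum_s5 k _ _ (fun p _ => ?_)
  refine sum_s5 k _ _ (fun q _ => ?_)
  refine sum_s5 k _ _ (fun r _ => ?_)
  refine sum_s5 k _ _ (fun s _ => ?_)
  simp only [det_nat]
  split_ifs with h
  · have h4 : (4 : ZMod 5) = -1 := by decide
    have e : (s : ZMod 5) * w - q * y - r * x + p * u =
        ((s * w + 4 * (q * y) + 4 * (r * x) + p * u : ℕ) : ZMod 5) := by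
      push_cast
      rw [h4]
      ring
    have e2 : (p : ZMod 5) + s = ((p + s : ℕ) : ZMod 5) := by push_cast; rfl
    rw [e, e2, tz_eq, tz_eq]
    push_cast
    rfl
  · simp

theorem a5_spec (f : ℕ → Bool) (h : a5 f = true) (n : ℕ) (hn : n < 5) : f n = true := by
  unfold a5 at h
  simp only [Bool.and_eq_true] at h
  interval_cases n
  · exact h.1.1.1.1
  · exact h.1.1.1.2
  · exact h.1.1.2
  · exact h.1.2
  · exact h.2

theorem cnt_eq (w x y u : ℕ) (hw : w < 5) (hx : x < 5) (hy : y < 5) (hu : u < 5)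
    (h : (w * u + 4 * (x * y)) % 5 = 1) : cnt w x y u % 2 = tt ((w + u) % 5) := by
  have h1 := a5_spec _ (a5_spec _ (a5_spec _ (a5_spec _ chk w hw) x hx) y hy) u hu
  simp only [h, if_true] at h1
  simpa using h1

/-- Quadruples of determinant one. -/
abbrev Quad : Type := {t : ZMod 5 × ZMod 5 × ZMod 5 × ZMod 5 // t.1 * t.2.2.2 - t.2.1 * t.2.2.1 = 1}

/-- `SL(2,5)` as quadruples. -/
def quadEquiv : Q5 ≃ Quad where
  toFun A := ⟨(A.1 0 0, A.1 0 1, A.1 1 0, A.1 1 1), by
    have := A.2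
    rwa [Matrix.det_fin_two] at this⟩
  invFun t := ⟨!![t.1.1, t.1.2.1; t.1.2.2.1, t.1.2.2.2], by
    rw [Matrix.det_fin_two_of]
    exact t.2⟩
  left_inv A := by
    apply Subtype.ext
    ext i j
    fin_cases i <;> fin_cases j <;> rfl
  right_inv t := by
    apply Subtype.ext
    rfl

theorem sum_SL (k : Type) [Field k] (F : ZMod 5 → ZMod 5 → ZMod 5 → ZMod 5 → k) :
    ∑ A : Q5, F (A.1 0 0) (A.1 0 1) (A.1 1 0) (A.1 1 1) =
      ∑ p : ZMod 5, ∑ q : ZMod 5, ∑ r : ZMod 5, ∑ s : ZMod 5,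
        (if p * s - q * r = 1 then F p q r s else 0) := by
  have e1 : ∑ A : Q5, F (A.1 0 0) (A.1 0 1) (A.1 1 0) (A.1 1 1) =
      ∑ t : Quad, F t.1.1 t.1.2.1 t.1.2.2.1 t.1.2.2.2 :=
    Fintype.sum_equiv quadEquiv _ _ (fun _ => rfl)
  have e2 : ∑ t : Quad, F t.1.1 t.1.2.1 t.1.2.2.1 t.1.2.2.2 =
      ∑ t : ZMod 5 × ZMod 5 × ZMod 5 × ZMod 5, (if t.1 * t.2.2.2 - t.2.1 * t.2.2.1 = 1 then
        F t.1 t.2.1 t.2.2.1 t.2.2.2 else 0) := by
    rw [← Finset.sum_filter]
    exact (Finset.sum_subtype (Finset.univ.filter fun t : ZMod 5 × ZMod 5 × ZMod 5 × ZMod 5 =>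
      t.1 * t.2.2.2 - t.2.1 * t.2.2.1 = 1) (fun t => by simp)
      (fun t => F t.1 t.2.1 t.2.2.1 t.2.2.2)).symm
  rw [e1, e2, Fintype.sum_prod_type]
  refine Finset.sum_congr rfl fun p _ => ?_
  rw [Fintype.sum_prod_type]
  refine Finset.sum_congr rfl fun q _ => ?_
  rw [Fintype.sum_prod_type]

theorem zf_idem (k : Type) [Field k] [CharP k 2] : cv (zf k) (zf k) = (zf k : Q5 → k) := by
  funext g
  have e1 : cv (zf k) (zf k) g = ∑ A : Q5, tz k (A.1 0 0 + A.1 1 1) *
      tz k (A.1 1 1 * g.1 0 0 - A.1 0 1 * g.1 1 0 - A.1 1 0 * g.1 0 1 + A.1 0 0 * g.1 1 1) := by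
    unfold cv zf
    refine Finset.sum_congr rfl fun A _ => ?_
    congr 2
    rw [Matrix.SpecialLinearGroup.coe_mul, Matrix.SpecialLinearGroup.coe_inv,
      Matrix.adjugate_fin_two]
    simp only [Matrix.mul_apply, Fin.sum_univ_two, Matrix.of_apply, Matrix.cons_val', Matrix.cons_val_zero,
      Matrix.cons_val_one, Matrix.cons_val_fin_one]
    ring
  rw [e1, sum_SL k (fun p q r s => tz k (p + s) *
    tz k (s * g.1 0 0 - q * g.1 1 0 - r * g.1 0 1 + p * g.1 1 1))]
  obtain ⟨w, hw, hw'⟩ : ∃ n : ℕ, n < 5 ∧ g.1 0 0 = (n : ZMod 5) :=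
    ⟨(g.1 0 0).val, ZMod.val_lt _, (ZMod.natCast_zmod_val _).symm⟩
  obtain ⟨x, hx, hx'⟩ : ∃ n : ℕ, n < 5 ∧ g.1 0 1 = (n : ZMod 5) :=
    ⟨(g.1 0 1).val, ZMod.val_lt _, (ZMod.natCast_zmod_val _).symm⟩
  obtain ⟨y, hy, hy'⟩ : ∃ n : ℕ, n < 5 ∧ g.1 1 0 = (n : ZMod 5) :=
    ⟨(g.1 1 0).val, ZMod.val_lt _, (ZMod.natCast_zmod_val _).symm⟩
  obtain ⟨u, hu, hu'⟩ : ∃ n : ℕ, n < 5 ∧ g.1 1 1 = (n : ZMod 5) :=
    ⟨(g.1 1 1).val, ZMod.val_lt _, (ZMod.natCast_zmod_val _).symm⟩
  have hdet : (w * u + 4 * (x * y)) % 5 = 1 := by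
    rw [← det_nat, ← hw', ← hx', ← hy', ← hu', ← Matrix.det_fin_two]
    exact g.2
  rw [hw', hx', hy', hu', sum4, CharP.cast_eq_mod k 2, cnt_eq w x y u hw hx hy hu hdet, ← tz_eq]
  unfold zf
  rw [hw', hu']
  push_cast
  rfl

/-- `PSL(2,5)`, as the quotient by the centre. -/
abbrev P5 : Type := Q5 ⧸ Subgroup.center Q5

theorem mem_center (A : Q5) : A ∈ Subgroup.center Q5 ↔ A = 1 ∨ A = -1 := by
  rw [Matrix.SpecialLinearGroup.mem_center_iff]
  constructor
  · rintro ⟨r, hr, hA⟩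
    have hr2 : r = 1 ∨ r = -1 := by
      rw [Fintype.card_fin] at hr
      clear hA
      revert r
      decide
    rcases hr2 with h | h
    · left
      apply Subtype.ext
      rw [← hA, h]
      simp
    · right
      apply Subtype.ext
      rw [← hA, h]
      rw [Matrix.SpecialLinearGroup.coe_neg]
      ext i j
      fin_cases i <;> fin_cases j <;> simp
  · rintro (h | h)
    · refine ⟨1, by simp, ?_⟩
      rw [h]
      simp
    · refine ⟨-1, by simp, ?_⟩
      rw [h, Matrix.SpecialLinearGroup.coe_neg]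
      ext i j
      fin_cases i <;> fin_cases j <;> simp

theorem ker_iff (A B : Q5) : (QuotientGroup.mk' (Subgroup.center Q5)) A =
    (QuotientGroup.mk' (Subgroup.center Q5)) B ↔ A = B ∨ A = -1 * B := by
  rw [QuotientGroup.mk'_apply, QuotientGroup.mk'_apply, QuotientGroup.eq, mem_center]
  constructor
  · rintro (h | h)
    · left; exact (inv_mul_eq_one.mp h)
    · right
      have : B = A * -1 := by rw [← h]; group
      rw [this]
      simp
  · rintro (h | h)
    · left; rw [h]; group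
    · right; rw [h]; simp

noncomputable instance : Fintype P5 := Fintype.ofFinite _
noncomputable instance : DecidableEq P5 := Classical.decEq _

theorem main (k : Type) [Field k] [CharP k 2] : ¬ IsSemisimpleRing (Hpar k (Fn k P5)) := by
  have h2 : (2 : k) = 0 := by
    have := CharP.cast_eq_zero k 2
    simpa using this
  have hz : ∀ t : ZMod 5, (t = 2 ∨ t = 4) → tz k t = 1 := by
    intro t ht
    unfold tz
    rcases ht with h | h
    · rw [if_pos h]
    · rw [h, if_neg (by decide), if_pos rfl]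
  have hz0 : ∀ t : ZMod 5, (t ≠ 2 ∧ t ≠ 4) → tz k t = 0 := by
    intro t ht
    unfold tz
    rw [if_neg ht.1, if_neg ht.2]
  refine not_ss_of_class (Q := Q5) (G := P5) h2 (QuotientGroup.mk' (Subgroup.center Q5)) (-1)
    ker_iff (by simp) (zf k) (zf_comm k) (zf_idem k) ?_ ?_
    ⟨!![1, 1; 0, 1], by decide⟩ ⟨!![1, 0; -1, 1], by decide⟩ ⟨!![-1, 1; -1, 0], by decide⟩
    ?_ ?_ ?_ ?_ ?_ ?_ ?_ ?_ ?_ ?_ ?_ ?_
  · exact hz _ (by decide)
  · exact hz0 _ (by decide)
  · exact hz _ (by decide)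
  · exact hz0 _ (by decide)
  · exact hz _ (by decide)
  · exact hz0 _ (by decide)
  · exact hz _ (by decide)
  · exact hz0 _ (by decide)
  · exact hz _ (by decide)
  · exact hz0 _ (by decide)
  · decide
  · exact fun h => absurd (congrArg (fun M : Q5 => M.1 0 1) h) (by decide)
  · exact fun h => absurd (congrArg (fun M : Q5 => M.1 1 0) h) (by decide)
  · exact fun h => absurd (congrArg (fun M : Q5 => M.1 0 1) h) (by decide)

end SL

end V11196.HPar
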